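import Pool.Agent.Run7.h213.Q.Fe

set_option autoImplicit false

open MeasureTheory
open scoped Pointwise
open Pool.Agent.Helper985.CP (E3 Species Wave energy)
open Pool.Agent.Helper780_CP (nb cy ct)
open Pool.Agent.Helper780_CP.RL2b (loc_upper_g)
open Run7.h213.Q (OrIn fe)

namespace Pool.Agent.Results.MP_03db12_mp.LocalMoments

/-- Uniform exponential moments of the local number of particles for Coulomb matter in thermal
equilibrium, at all densities and temperatures, in the dilates of an arbitrary bounded open set. -/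
theorem result {S : Type} [Fintype S] [DecidableEq S] (D : Species S) (hD : D.Valid)
    (hf : ∀ s, D.charge s < 0 → D.fermion s = true)
    (Ω₀ : Set E3) (ho : IsOpen Ω₀) (hb : Bornology.IsBounded Ω₀) (h0 : (0 : E3) ∈ Ω₀)
    (T ρ₁ ρ₂ R : ℝ) (hT : 0 < T) (hρ₁ : 0 < ρ₁) (hρ₂ : 0 < ρ₂) (hR : 0 < R) :
    ∃ a C l₀ : ℝ, 0 < a ∧ 0 < C ∧ ∀ (n : S → ℕ) (l : ℝ), l₀ ≤ l →
      ρ₁ * l ^ 3 ≤ ∑ s, (n s : ℝ) → ∑ s, (n s : ℝ) ≤ ρ₂ * l ^ 3 →
      ∑ s, (n s : ℝ) * D.charge s = 0 →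
      ∀ (k : ℕ) (ψ : Fin k → Wave D (Σ s, Fin (n s))) (p : Fin k → ℝ),
        OrIn D Sigma.fst (l • Ω₀) ψ → (∀ j, 0 ≤ p j) → ∑ j, p j = 1 →
        ∑ j, (p j * energy D Sigma.fst (ψ j) + T * (p j * Real.log (p j))) ≤
          fe D (I := Σ s, Fin (n s)) Sigma.fst (l • Ω₀) T + Real.exp (-∑ s, (n s : ℝ)) →
        ∑ j, p j * (∑ τ, ∫ x, Real.exp (a * nb 0 R x) * ‖ψ j τ x‖ ^ 2) ≤ C := by
  obtain ⟨c, b, hb0, hc⟩ := Run7.h213.Q.dil_cont Ω₀ ho hb h0
  have hst := Pool.Agent.Helper780_CP.hstable D hD hf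
  obtain ⟨a, C, ha, hC, H⟩ := Run7.h213.Q.exp_mom c D hD hf T (b ^ 3 / ρ₁) (ρ₂ / b ^ 3) hT
    (by positivity) (by positivity) R hR
  refine ⟨a, C, max (4 * (2 * R + 20) / b) 1, ha, hC, ?_⟩
  intro n l hl h1 h2 hneu k ψ p hψ hp0 hp1 hF
  have hl1 : 1 ≤ l := (le_max_right _ _).trans hl
  replace hl := (le_max_left _ _).trans hl
  have hl0 : 0 < l := by linarith
  rw [div_le_iff₀ hb0] at hl
  have hcard : ((Fintype.card (Σ s, Fin (n s)) : ℕ) : ℝ) = ∑ s, (n s : ℝ) := by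
    rw [Fintype.card_sigma]
    simp
  have hdom : c.dom (b * l) = l • Ω₀ := hc l hl0
  rw [← hdom] at hψ hF
  have hne := Run7.h213.Q.fe_ne c D Sigma.fst hD hst (b * l) T _ (by positivity) hT ψ p hψ hp0 hp1
    hF
  have e1 : (b * l) ^ 3 ≤ b ^ 3 / ρ₁ * ((Fintype.card (Σ s, Fin (n s)) : ℕ) : ℝ) := by
    rw [hcard, mul_pow, div_mul_eq_mul_div, le_div_iff₀ hρ₁]
    have := mul_le_mul_of_nonneg_left h1 (pow_pos hb0 3).le
    linarith
  have e2 : ((Fintype.card (Σ s, Fin (n s)) : ℕ) : ℝ) ≤ ρ₂ / b ^ 3 * (b * l) ^ 3 := by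
    rw [hcard, mul_pow]
    have : ρ₂ / b ^ 3 * (b ^ 3 * l ^ 3) = ρ₂ * l ^ 3 := by field_simp
    rw [this]
    exact h2
  have e3 : ∑ i : (Σ s, Fin (n s)), D.charge i.1 = 0 := by
    rw [Fintype.sum_sigma, ← hneu]
    refine Finset.sum_congr rfl fun s _ => ?_
    simp
  have hη : (0 : ℝ) ≤ Real.exp (-∑ s, (n s : ℝ)) := (Real.exp_pos _).le
  refine le_trans ?_ (H Sigma.fst (b * l) (by linarith) e1 e2 e3 _ _ hη (by rw [hcard]) p ψ hne)
  refine Finset.sum_le_sum fun j _ => mul_le_mul_of_nonneg_left ?_ (hp0 j)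
  have hm : Measurable (fun x : (Σ s, Fin (n s)) → E3 => Real.exp (a * nb 0 R x)) := by
    refine Real.measurable_exp.comp (Measurable.const_mul ?_ a)
    unfold nb
    refine Finset.measurable_sum _ fun i _ => ?_
    refine Measurable.ite ?_ measurable_const measurable_const
    refine measurableSet_le ?_ measurable_const
    fun_prop
  have h01 : ∀ x : (Σ s, Fin (n s)) → E3, 0 ≤ nb 0 R x ∧ nb 0 R x ≤ ∑ s, (n s : ℝ) := by
    intro x
    unfold nb
    constructor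
    · exact Finset.sum_nonneg fun i _ => by split_ifs <;> norm_num
    · rw [← hcard]
      calc (∑ i, if ‖x i - 0‖ ≤ R then (1 : ℝ) else 0) ≤
          ∑ _i : (Σ s, Fin (n s)), (1 : ℝ) :=
            Finset.sum_le_sum fun i _ => by split_ifs <;> norm_num
        _ = _ := by simp
  have hle : ∀ x : (Σ s, Fin (n s)) → E3, nb 0 R x ≤ loc_upper_g 0 R x := by
    intro x
    unfold nb loc_upper_g
    refine Finset.sum_le_sum fun i _ => ?_
    split_ifs with h
    · have h3 : cy 0 R (x i) = 1 := by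
        unfold cy ct
        refine Real.smoothTransition.one_of_one_le ?_
        rw [sub_zero] at h ⊢
        rw [norm_smul, Real.norm_of_nonneg (inv_nonneg.2 hR.le), mul_pow]
        have h4 : (R⁻¹) ^ 2 * ‖x i‖ ^ 2 ≤ 1 := by
          rw [← mul_pow]
          refine pow_le_one₀ (by positivity) ?_
          rw [inv_mul_le_iff₀ hR]
          linarith
        linarith
      rw [h3]; norm_num
    · positivity
  refine Run7.h213.Q.wm_mon D (V := fun x => Real.exp (a * nb 0 R x))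
    (W := fun x => Real.exp (a * loc_upper_g 0 R x)) (fun τ => ?_) (fun τ => ?_) (fun x => ?_)
  · refine Run7.h213.Q.wi_bdd D Sigma.fst (hψ.1 j) hm (Real.exp (a * ∑ s, (n s : ℝ)))
      (fun x => ?_) τ
    rw [abs_of_pos (Real.exp_pos _)]
    exact Real.exp_le_exp.2 (mul_le_mul_of_nonneg_left (h01 x).2 ha.le)
  · exact Run7.h213.Q.wi_cont D Sigma.fst (hψ.1 j)
      (Real.continuous_exp.comp (continuous_const.mul (Run7.h213.Q.g_cont R))) τ
  · exact Real.exp_le_exp.2 (mul_le_mul_of_nonneg_left (hle x) ha.le)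

end Pool.Agent.Results.MP_03db12_mp.LocalMoments
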